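import Pool.Agent.MP_3ee8cb_gt.DLJ.Alg

/-! The Jacobian estimate with the sharp constant. -/

namespace Pool.Agent.MP_3ee8cb_gt.DQJ

open Set MeasureTheory CR DLJ
open scoped RealInnerProductSpace

/-- The pointwise inequality, in coordinates. -/
theorem alg_pt {ι : Type*} [Fintype ι] (r x z : ι → ℝ) (c ε p q : ℝ) (hp : 0 ≤ p)
    (hr : ∀ i, p ≤ r i ∧ r i ≤ q) (hc : 1 ≤ c) (hzx : ∑ i, z i * x i = 0)
    (hz : ∑ i, z i ^ 2 ≤ ε ^ 2 * (c - 1)) :
    ∑ i, r i ^ 2 * x i ^ 2 - ε ^ 2 / 4 * (q - p) ^ 2 ≤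
      c * ∑ i, r i ^ 2 * x i ^ 2 + ∑ i, r i ^ 2 * (z i * x i) := by
  have hsh : ∑ i, r i ^ 2 * (z i * x i) = ∑ i, (r i ^ 2 - p * q) * (z i * x i) := by
    simp only [sub_mul, Finset.sum_sub_distrib, ← Finset.mul_sum, hzx, mul_zero, sub_zero]
  rcases hc.eq_or_lt with h1 | h1
  · have hz0 : ∀ i, z i = 0 := fun i => by
      have h2 : z i ^ 2 ≤ ∑ i, z i ^ 2 :=
        Finset.single_le_sum (f := fun i => z i ^ 2) (fun k _ => sq_nonneg _) (Finset.mem_univ i)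
      rw [← h1, sub_self, mul_zero] at hz
      exact pow_eq_zero_iff (two_ne_zero) |>.1 (le_antisymm (h2.trans hz) (sq_nonneg _))
    simp only [hz0, zero_mul, mul_zero, Finset.sum_const_zero, add_zero, ← h1, one_mul]
    nlinarith [mul_nonneg (sq_nonneg ε) (sq_nonneg (q - p))]
  · have hk : 0 < c - 1 := by linarith
    have hi : ∀ i, -((c - 1) * ((c - 1) * (r i ^ 2 * x i ^ 2)) + (q - p) ^ 2 / 4 * z i ^ 2) ≤
        (c - 1) * ((r i ^ 2 - p * q) * (z i * x i)) := fun i => by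
      obtain ⟨a1, a2⟩ := hr i
      have a3 : |r i ^ 2 - p * q| ≤ (q - p) * r i := by
        rw [abs_le]
        constructor
        · nlinarith [mul_nonneg (sub_nonneg.2 a1) (by linarith : 0 ≤ r i + q)]
        · nlinarith [mul_nonneg (sub_nonneg.2 a2) (by linarith : 0 ≤ r i + p)]
      have a4 : |(r i ^ 2 - p * q) * (z i * x i)| ≤ (q - p) * r i * (|z i| * |x i|) := by
        rw [abs_mul, abs_mul]
        exact mul_le_mul_of_nonneg_right a3 (by positivity)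
      have a5 := mul_le_mul_of_nonneg_left (neg_le_of_abs_le a4) hk.le
      rw [← sq_abs (x i), ← sq_abs (z i)]
      nlinarith [sq_nonneg ((c - 1) * r i * |x i| - (q - p) / 2 * |z i|)]
    have hs := Finset.sum_le_sum fun i (_ : i ∈ Finset.univ) => hi i
    simp only [Finset.sum_neg_distrib, Finset.sum_add_distrib, ← Finset.mul_sum] at hs
    rw [hsh]
    have h3 : (q - p) ^ 2 / 4 * ∑ i, z i ^ 2 ≤ (q - p) ^ 2 / 4 * (ε ^ 2 * (c - 1)) :=
      mul_le_mul_of_nonneg_left hz (by positivity)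
    have h4 : (c - 1) * (-((c - 1) * ∑ i, r i ^ 2 * x i ^ 2) - ε ^ 2 / 4 * (q - p) ^ 2) ≤
        (c - 1) * ∑ i, (r i ^ 2 - p * q) * (z i * x i) := by nlinarith
    have h5 := le_of_mul_le_mul_left h4 hk
    nlinarith

/-- A trace bound with a defect below the squared spread bounds the product. -/
theorem alg_log {ι : Type*} [Fintype ι] (r : ι → ℝ) (hr : ∀ i, 0 < r i) (a b : ι) {k : ℝ}
    (hk : k < 1) (h : ∑ i, r i ^ 2 ≤ Fintype.card ι + k * (r a - r b) ^ 2) :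
    ∏ i, r i ^ 2 ≤ 1 ∧ (∏ i, r i ^ 2 = 1 → ∀ i, r i = 1) := by
  classical
  have hp : 0 < ∏ i, r i ^ 2 := Finset.prod_pos fun i _ => pow_pos (hr i) 2
  set g : ι → ℝ := fun i => r i ^ 2 - 1 - Real.log (r i ^ 2) with hg
  have g1 : ∀ i, (r i - 1) ^ 2 ≤ g i := fun i => by
    have := Real.log_le_sub_one_of_pos (hr i)
    simp only [hg, Real.log_pow]
    push_cast
    nlinarith
  have g0 : ∀ i, 0 ≤ g i := fun i => (sq_nonneg _).trans (g1 i)
  have g2 : (r a - r b) ^ 2 ≤ ∑ i, g i := by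
    rcases eq_or_ne a b with e | e
    · rw [e, sub_self, sq, mul_zero]
      exact Finset.sum_nonneg fun i _ => g0 i
    · refine le_trans ?_ (Finset.add_le_sum (f := g) (fun i _ => g0 i) (Finset.mem_univ a)
        (Finset.mem_univ b) e)
      have := Real.log_le_sub_one_of_pos (mul_pos (hr a) (hr b))
      rw [Real.log_mul (hr a).ne' (hr b).ne'] at this
      simp only [hg, Real.log_pow]
      push_cast
      nlinarith
  have h1 : Real.log (∏ i, r i ^ 2) = ∑ i, r i ^ 2 - Fintype.card ι - ∑ i, g i := by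
    rw [Real.log_prod fun i _ => (pow_pos (hr i) 2).ne']
    simp only [hg, Finset.sum_sub_distrib, Finset.sum_const, Finset.card_univ, nsmul_eq_mul,
      mul_one]
    ring
  have h2 := mul_nonneg (sub_pos.2 hk).le (sq_nonneg (r a - r b))
  refine ⟨(Real.log_nonpos_iff hp.le).1 (by linarith), fun h0 i => ?_⟩
  rw [h0, Real.log_one] at h1
  have h3 : (r a - r b) ^ 2 ≤ 0 :=
    le_of_mul_le_mul_left (a := 1 - k) (by linarith) (sub_pos.2 hk)
  have h4 : (r a - r b) ^ 2 = 0 := le_antisymm h3 (sq_nonneg _)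
  rw [h4] at h
  have h5 : g i ≤ ∑ i, g i := Finset.single_le_sum (fun j _ => g0 j) (Finset.mem_univ i)
  have h6 : (r i - 1) ^ 2 = 0 := le_antisymm (by linarith [g1 i]) (sq_nonneg _)
  exact sub_eq_zero.1 (pow_eq_zero_iff two_ne_zero |>.1 h6)

/-- The Jacobian estimate. -/
theorem alg {n : ℕ} (hn : 0 < n) {W : Type*} [MeasurableSpace W] (μ : Measure W)
    [IsFiniteMeasure μ]
    (u : W → E n) (l : W → E n →L[ℝ] ℝ) (L : E n →L[ℝ] E n) (ε : ℝ) (Q : W → Prop)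
    (hu : ∀ᵐ w ∂μ, ‖u w‖ = 1) (hum : AEStronglyMeasurable u μ)
    (hiso : ∀ a b : E n, ∫ w, ⟪u w, a⟫ * ⟪u w, b⟫ ∂μ = ⟪a, b⟫)
    (hint : ∀ e a : E n, Integrable (fun w => l w e * ⟪u w, a⟫) μ)
    (hzero : ∀ e a : E n, ∫ w, l w e * ⟪u w, a⟫ ∂μ = 0) (hε : n * ε ^ 2 < 4)
    (hok : ∀ᵐ w ∂μ, ∀ a : E n, ∃ (c : ℝ) (ζ : E n), 1 ≤ c ∧ ⟪ζ, u w⟫ = 0 ∧
      ‖ζ‖ ^ 2 ≤ ε ^ 2 * (c - 1) ∧ (c = 1 → Q w) ∧ l w a ≤ ‖a‖ - ⟪c • u w + ζ, L a⟫) :
    |L.det| ≤ 1 ∧ (|L.det| = 1 → (∀ e, ‖L e‖ = ‖e‖) ∧ ∀ᵐ w ∂μ, Q w) := by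
  rcases eq_or_ne L.det 0 with h0 | h0
  · rw [h0, abs_zero]
    exact ⟨zero_le_one, fun h => absurd h zero_ne_one⟩
  obtain ⟨e, f, s, hs, hL, hdet⟩ := nuc_svd L h0
  obtain ⟨r, hr, hrs⟩ : ∃ r : Fin n → ℝ, (∀ i, 0 < r i) ∧ ∀ i, s i = r i ^ 2 :=
    ⟨fun i => √(s i), fun i => Real.sqrt_pos.2 (hs i), fun i => (Real.sq_sqrt (hs i).le).symm⟩
  simp only [hrs] at hL hdet
  have : Nonempty (Fin n) := ⟨⟨0, hn⟩⟩
  obtain ⟨a, -, ha'⟩ := Finset.exists_max_image Finset.univ r Finset.univ_nonempty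
  obtain ⟨b, -, hb'⟩ := Finset.exists_min_image Finset.univ r Finset.univ_nonempty
  have hx : ∀ i, Integrable (fun w => ⟪u w, f i⟫ ^ 2) μ := fun i => by
    refine Integrable.of_bound ((hum.inner aestronglyMeasurable_const).pow 2) 1 ?_
    filter_upwards [hu] with w hw
    have h1 := abs_real_inner_le_norm (u w) (f i)
    rw [hw, f.orthonormal.1 i, mul_one] at h1
    rw [norm_pow, Real.norm_eq_abs]
    exact pow_le_one₀ (abs_nonneg _) h1
  have hx1 : ∀ i, ∫ w, ⟪u w, f i⟫ ^ 2 ∂μ = 1 := fun i => by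
    simp only [sq]
    rw [hiso, real_inner_self_eq_norm_sq, f.orthonormal.1 i, one_pow]
  have hm : μ.real univ = n := by
    have h1 : ∫ w, ∑ i, ⟪u w, f i⟫ ^ 2 ∂μ = ∫ _w, (1 : ℝ) ∂μ := by
      refine integral_congr_ae ?_
      filter_upwards [hu] with w hw
      rw [f.sum_sq_inner_left, hw, one_pow]
    rw [integral_finsetSum _ fun i _ => hx i] at h1
    simpa [hx1] using h1.symm
  have hgi : Integrable (fun w => ∑ i, l w (e i) * ⟪u w, f i⟫) μ :=
    integrable_finsetSum _ fun i _ => hint _ _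
  have hg0 : ∫ w, ∑ i, l w (e i) * ⟪u w, f i⟫ ∂μ = 0 := by
    rw [integral_finsetSum _ fun i _ => hint _ _]
    simp only [hzero, Finset.sum_const_zero]
  have hai : Integrable (fun w => ∑ i, r i ^ 2 * ⟪u w, f i⟫ ^ 2) μ :=
    integrable_finsetSum _ fun i _ => (hx i).const_mul _
  have ha : ∫ w, ∑ i, r i ^ 2 * ⟪u w, f i⟫ ^ 2 ∂μ = ∑ i, r i ^ 2 := by
    rw [integral_finsetSum _ fun i _ => (hx i).const_mul _]
    simp only [integral_const_mul, hx1, mul_one]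
  have hle : ∀ᵐ w ∂μ, ∑ i, l w (e i) * ⟪u w, f i⟫ ≤
      (1 + ε ^ 2 / 4 * (r a - r b) ^ 2) - ∑ i, r i ^ 2 * ⟪u w, f i⟫ ^ 2 := by
    filter_upwards [hu, hok] with w hw hc
    obtain ⟨c, z, h0, -, h1, h2, h3⟩ := eval e f r hL hw hc
    have h5 := alg_pt r (fun i => ⟪u w, f i⟫) z c ε (r b) (r a) (hr b).le
      (fun i => ⟨hb' i (Finset.mem_univ i), ha' i (Finset.mem_univ i)⟩) h0 h1 h2
    linarith
  have htr := integral_mono_ae hgi ((integrable_const _).sub hai) hle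
  rw [hg0] at htr
  simp only [Pi.sub_apply] at htr
  rw [integral_sub (integrable_const _) hai, ha, integral_const, hm, smul_eq_mul] at htr
  have hlog := alg_log r hr a b (k := n * ε ^ 2 / 4) (by linarith) (by
    rw [Fintype.card_fin]
    linarith)
  rw [hdet]
  refine ⟨hlog.1, fun h1 => ?_⟩
  have hr1 := hlog.2 h1
  have hL1 : ∀ i, L (e i) = f i := fun i => by rw [hL, hr1, one_pow, one_smul]
  constructor
  · intro v
    have h2 : L v = ∑ i, ⟪e i, v⟫ • f i := by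
      conv_lhs => rw [← e.sum_repr' v]
      simp only [map_sum, map_smul, hL1]
    have h3 : ‖L v‖ ^ 2 = ‖v‖ ^ 2 := by
      rw [h2, ← f.sum_sq_inner_right, ← e.sum_sq_inner_right v]
      simp only [f.orthonormal.inner_right_fintype]
    exact (pow_left_inj₀ (norm_nonneg _) (norm_nonneg _) two_ne_zero).1 h3
  · have hc1 : ∀ᵐ w ∂μ, ∃ c : ℝ, 1 ≤ c ∧ (c = 1 → Q w) ∧
        ∑ i, l w (e i) * ⟪u w, f i⟫ ≤ 1 - c := by
      filter_upwards [hu, hok] with w hw hc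
      obtain ⟨c, z, h0, hQ, h2, -, h3⟩ := eval e f r hL hw hc
      simp only [hr1, one_pow, one_mul] at h3
      rw [h2, f.sum_sq_inner_left, hw, one_pow, mul_one, add_zero] at h3
      exact ⟨c, h0, hQ, h3⟩
    have hneg : 0 ≤ᵐ[μ] fun w => -∑ i, l w (e i) * ⟪u w, f i⟫ := by
      filter_upwards [hc1] with w ⟨c, h0, _, h3⟩
      simp only [Pi.zero_apply]
      linarith
    have hz := (integral_eq_zero_iff_of_nonneg_ae hneg hgi.neg).1
      (by rw [integral_neg, hg0, neg_zero])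
    filter_upwards [hc1, hz] with w ⟨c, h0, hQ, h3⟩ h2
    simp only [Pi.zero_apply, neg_eq_zero] at h2
    exact hQ (by linarith)

end Pool.Agent.MP_3ee8cb_gt.DQJ
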