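import Mathlib

/-! Two scalar inequalities. -/

namespace Pool.Agent.MP_3ee8cb_gt.DQJ

open Real

/-- The first inequality, with `s = 1 / N`. -/
theorem num1 {s t x : ℝ} (s0 : 0 < s) (s1 : s ≤ 1 / 4) (t0 : s ^ 2 ≤ (107 / 200) ^ 2 * t)
    (t1 : t ≤ 1) (x0 : 0 ≤ x) (x1 : x ≤ 81 / 5 * s ^ 2 * (1 - t ^ 2)) :
    81 / 5 * s ^ 2 * x - x ^ 2 ≤ 39 / 10 * s * t * (1 - t + x) := by
  have tp : 0 < t := by nlinarith [sq_pos_of_pos s0]
  have s2 : s ^ 2 ≤ s / 4 := by nlinarith
  rcases le_total (18 / 25) t with h | h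
  · rcases le_total (81 / 5 * s ^ 2) (39 / 10 * s * t) with k | k
    · nlinarith [mul_nonneg (sub_nonneg.2 k) x0, sq_nonneg x,
        mul_nonneg (mul_pos s0 tp).le (sub_nonneg.2 t1)]
    · have a1 : x ≤ 2 * (81 / 5 * s ^ 2) * (1 - t) := by
        nlinarith [mul_nonneg (sq_nonneg s) (sq_nonneg (1 - t))]
      have a2 := mul_le_mul_of_nonneg_left a1 (sub_nonneg.2 k)
      have a3 : 2 * (81 / 5 * s ^ 2) ^ 2 ≤ 39 / 10 * s * t * (1 + 2 * (81 / 5 * s ^ 2)) := by
        have b1 : 2 * (81 / 5) ^ 2 * s ^ 3 ≤ 39 / 10 * (18 / 25) * (1 + 2 * (81 / 5 * s ^ 2)) := by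
          nlinarith [mul_nonneg (sq_nonneg s) (sub_nonneg.2 s1)]
        have b2 := mul_le_mul_of_nonneg_left b1 s0.le
        have b3 : 0 ≤ s * (1 + 2 * (81 / 5 * s ^ 2)) := by positivity
        nlinarith [mul_nonneg b3 (sub_nonneg.2 h)]
      nlinarith [mul_le_mul_of_nonneg_right a3 (sub_nonneg.2 t1), sq_nonneg x]
  · have a1 : (81 / 5 * s ^ 2 - 39 / 10 * s * t) ^ 2 ≤ 4 * (39 / 10 * s * t) * (1 - t) ∨
        81 / 5 * s ^ 2 ≤ 39 / 10 * s * t := by
      rcases le_total (81 / 5 * s ^ 2) (39 / 10 * s * t) with k | k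
      · exact .inr k
      left
      have b0 : s * (81 / 5 * s - 39 / 10 * t) ^ 2 ≤ 4 * (39 / 10 * t) * (1 - t) := by
        obtain ⟨τ, hτ⟩ : ∃ τ, τ = s ^ 2 / (107 / 200) ^ 2 := ⟨_, rfl⟩
        have c0 : τ ≤ t := by
          rw [hτ, div_le_iff₀ (by norm_num)]
          linarith
        have c1 : s * (81 / 5 * s - 39 / 10 * τ) ^ 2 ≤ 4 * (39 / 10 * τ) * (1 - τ) := by
          have d1 : s * (81 / 5 - 39 / 10 / (107 / 200) ^ 2 * s) ^ 2 ≤
              4 * (39 / 10 / (107 / 200) ^ 2) * (1 - s ^ 2 / (107 / 200) ^ 2) := by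
            have e1 := mul_nonneg (sq_nonneg s) (sub_nonneg.2 s1)
            have e2 := sq_nonneg (s - 1 / 4)
            ring_nf at e1 e2 ⊢
            linarith
          have d2 := mul_le_mul_of_nonneg_left d1 (sq_nonneg s)
          rw [hτ]
          refine le_trans (le_of_eq ?_) (d2.trans (le_of_eq ?_)) <;> ring
        have c2 : s * (81 / 5 * s - 39 / 10 * (18 / 25)) ^ 2 ≤
            4 * (39 / 10 * (18 / 25)) * (1 - 18 / 25) := by
          nlinarith [mul_nonneg s0.le (sub_nonneg.2 s1),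
            mul_nonneg (sq_nonneg s) (sub_nonneg.2 s1)]
        have c3 : τ < 18 / 25 := by
          rw [hτ, div_lt_iff₀ (by norm_num)]
          linarith
        refine le_of_mul_le_mul_left (a := 18 / 25 - τ) ?_ (sub_pos.2 c3)
        have c4 := mul_le_mul_of_nonneg_left c1 (sub_nonneg.2 h)
        have c5 := mul_le_mul_of_nonneg_left c2 (sub_nonneg.2 c0)
        have c6 : 0 ≤ (s * (39 / 10) ^ 2 + 4 * (39 / 10)) *
            ((t - τ) * (18 / 25 - t) * (18 / 25 - τ)) :=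
          mul_nonneg (by positivity) (mul_nonneg (mul_nonneg (sub_nonneg.2 c0) (sub_nonneg.2 h))
            (sub_pos.2 c3).le)
        linarith
      have b1 := mul_le_mul_of_nonneg_left b0 s0.le
      refine le_trans (le_of_eq ?_) (b1.trans (le_of_eq ?_)) <;> ring
    rcases a1 with a1 | k
    · nlinarith [sq_nonneg (81 / 5 * s ^ 2 - 39 / 10 * s * t - 2 * x)]
    · nlinarith [mul_nonneg (sub_nonneg.2 k) x0, sq_nonneg x,
        mul_nonneg (mul_pos s0 tp).le (sub_nonneg.2 t1)]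

/-- Tangent lines of `y * log y`. -/
theorem tang {y a : ℝ} (y0 : 0 ≤ y) (a0 : 0 < a) : y * log a + y - a ≤ y * log y := by
  rcases y0.eq_or_lt with h | h
  · rw [← h]
    simp [a0.le]
  have h1 := log_le_sub_one_of_pos (div_pos a0 h)
  rw [log_div a0.ne' h.ne'] at h1
  have h2 := mul_le_mul_of_nonneg_left h1 y0
  rw [mul_sub y (a / y), mul_div_cancel₀ _ h.ne'] at h2
  linarith

theorem log_three_half : 2 / 5 ≤ log (3 / 2) := by
  have h := le_log_one_add_of_nonneg (x := 1 / 2) (by norm_num)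
  norm_num at h ⊢
  linarith

/-- The second inequality in the variable `y = F x`. -/
theorem num2' {F y : ℝ} (hF : 21 / 10 ≤ F) (y0 : 0 ≤ y) (y1 : y ≤ F) :
    97 / 100 * (y ^ 2 / F) - 2037 / 4000 + 1 / 1000 ≤ y * log y := by
  have F0 : 0 < F := by linarith
  have l2 := log_two_gt_d9
  have l2' := log_two_lt_d9
  have l3 := log_three_half
  have e1 : log (1 / 2) = -log 2 := by rw [one_div, log_inv]
  have e2 : log (3 / 4) = log (3 / 2) - log 2 := by
    rw [← log_div (by norm_num) (by norm_num)]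
    norm_num
  have t1 := tang y0 (a := 1 / 2) (by norm_num)
  have t2 := tang y0 (a := 3 / 4) (by norm_num)
  have t3 := tang y0 (a := 1) (by norm_num)
  have t4 := tang y0 (a := 3 / 2) (by norm_num)
  have t5 := tang y0 (a := 2) (by norm_num)
  rw [e1] at t1
  rw [e2] at t2
  rw [log_one] at t3
  have u1 := mul_le_mul_of_nonneg_left l2'.le y0
  have u2 := mul_le_mul_of_nonneg_left l2.le y0
  have u3 := mul_le_mul_of_nonneg_left l3 y0
  rcases le_total (21 / 10) y with h | h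
  · have : y ^ 2 / F ≤ y := by
      rw [div_le_iff₀ F0]
      nlinarith
    linarith
  have h0 : y ^ 2 / F ≤ y ^ 2 / (21 / 10) :=
    div_le_div_of_nonneg_left (sq_nonneg y) (by norm_num) hF
  rcases le_total y (3 / 5) with k | k
  · nlinarith [mul_nonneg y0 (sub_nonneg.2 k)]
  rcases le_total y (17 / 20) with k1 | k1
  · nlinarith [mul_nonneg (sub_nonneg.2 k) (sub_nonneg.2 k1)]
  rcases le_total y (5 / 4) with k2 | k2
  · nlinarith [mul_nonneg (sub_nonneg.2 k1) (sub_nonneg.2 k2)]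
  rcases le_total y (7 / 4) with k3 | k3
  · nlinarith [mul_nonneg (sub_nonneg.2 k2) (sub_nonneg.2 k3)]
  · nlinarith [mul_nonneg (sub_nonneg.2 k3) (sub_nonneg.2 h)]

/-- The second inequality. -/
theorem num2 {N F x : ℝ} (hN : 4 ≤ N) (hF : 21 / 40 * N ≤ F) (x0 : 0 ≤ x) (x1 : x ≤ 1) :
    97 / 100 * (x ^ 2 - 1 / N) + 1 / (1000 * (21 / 40 * N)) ≤ x * log (F * x) := by
  have N0 : 0 < N := by linarith
  have G0 : 0 < 21 / 40 * N := by positivity
  have h := num2' (F := 21 / 40 * N) (y := 21 / 40 * N * x) (by linarith) (by positivity)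
    (mul_le_of_le_one_right G0.le x1)
  have h1 : x * log (21 / 40 * N * x) ≤ x * log (F * x) := by
    rcases x0.eq_or_lt with e | e
    · simp [← e]
    · exact mul_le_mul_of_nonneg_left (log_le_log (by positivity)
        (mul_le_mul_of_nonneg_right hF x0)) x0
  refine le_trans (le_of_mul_le_mul_left (a := 21 / 40 * N) ?_ G0) h1
  refine le_trans (le_of_eq ?_) (h.trans (le_of_eq ?_))
  · field_simp
    ring
  · ring

end Pool.Agent.MP_3ee8cb_gt.DQJ
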